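import Pool.Agent.Q204.WD.Basic

set_option autoImplicit false

namespace Q204.LL

open Q204.WD

/-! ### Topology of Baire space in terms of initial segments -/

theorem isOpen_iff_pre {A : Set (ℕ → ℕ)} :
    IsOpen A ↔ ∀ x ∈ A, ∃ n, ∀ y, pre y n = pre x n → y ∈ A := by
  constructor
  · intro h x hx
    obtain ⟨v, ⟨y, n, rfl⟩, hxv, hv⟩ :=
      (PiNat.isTopologicalBasis_cylinders (fun _ => ℕ)).exists_subset_of_mem_open hx h
    refine ⟨n, fun z hz => hv ?_⟩
    rw [PiNat.mem_cylinder_iff]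
    intro i hi
    rw [pre_eq_iff.1 hz i hi]
    exact PiNat.mem_cylinder_iff.1 hxv i hi
  · intro h
    rw [(PiNat.isTopologicalBasis_cylinders (fun _ : ℕ => ℕ)).isOpen_iff]
    intro x hx
    obtain ⟨n, hn⟩ := h x hx
    refine ⟨PiNat.cylinder x n, ⟨x, n, rfl⟩, PiNat.self_mem_cylinder x n, ?_⟩
    intro y hy
    apply hn
    apply pre_congr
    intro i hi
    exact PiNat.mem_cylinder_iff.1 hy i hi

theorem isOpen_pre (P : List ℕ → Prop) (n : ℕ) : IsOpen {x : ℕ → ℕ | P (pre x n)} := by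
  rw [isOpen_iff_pre]
  intro x hx
  refine ⟨n, fun y hy => ?_⟩
  show P (pre y n)
  rw [hy]
  exact hx

theorem isClosed_pre (P : List ℕ → Prop) (n : ℕ) : IsClosed {x : ℕ → ℕ | P (pre x n)} := by
  rw [← isOpen_compl_iff]
  exact isOpen_pre (fun l => ¬ P l) n

/-- Sequences of bits. -/
def Bits : Set (ℕ → ℕ) := {x | ∀ n, x n ≤ 1}

theorem isCompact_Bits : IsCompact Bits := by
  have h : Bits = Set.pi Set.univ (fun _ : ℕ => Set.Iic 1) := by
    ext x
    simp [Bits, Pi.le_def]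
  rw [h]
  apply isCompact_univ_pi
  intro _
  exact (Set.finite_Iic 1).isCompact

theorem exists_of_seq (C : ℕ → Set (ℕ → ℕ)) (hne : ∀ n, (C n ∩ Bits).Nonempty)
    (hmono : ∀ n, C (n + 1) ⊆ C n) (hcl : ∀ n, IsClosed (C n)) :
    ∃ x ∈ Bits, ∀ n, x ∈ C n := by
  have h := IsCompact.nonempty_iInter_of_sequence_nonempty_isCompact_isClosed
    (fun n => C n ∩ Bits) (fun n x hx => ⟨hmono n hx.1, hx.2⟩) hne
    (isCompact_Bits.inter_left (hcl 0))
    (fun n => (hcl n).inter isCompact_Bits.isClosed)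
  obtain ⟨x, hx⟩ := h
  rw [Set.mem_iInter] at hx
  exact ⟨x, (hx 0).2, fun n => (hx n).1⟩

/-! ### Names of closed sets -/

/-- Strings excluded by a finite part of a name. -/
def exclL (E : List ℕ) : Set (List ℕ) := {l | Encodable.encode l + 1 ∈ E}

/-- Points of Cantor space not yet excluded by a finite part of a name. -/
def cantorL (E : List ℕ) : Set (ℕ → ℕ) :=
  {x | (∀ n, x n ≤ 1) ∧ ∀ l ∈ exclL E, l ≠ pre x l.length}

theorem cantorL_anti {E E' : List ℕ} (h : E <+: E') : cantorL E' ⊆ cantorL E := by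
  intro x hx
  exact ⟨hx.1, fun l hl => hx.2 l (h.subset hl)⟩

theorem isClosed_cantorL (E : List ℕ) : IsClosed (cantorL E) := by
  have h : cantorL E = Bits ∩ ⋂ l ∈ exclL E, {x : ℕ → ℕ | l ≠ pre x l.length} := by
    ext x
    simp [cantorL, Bits]
  rw [h]
  refine isCompact_Bits.isClosed.inter ?_
  exact isClosed_biInter (fun l _ => isClosed_pre (fun l' => l ≠ l') l.length)

/-- The column `i` of the finite sequence `c` agrees with `z`. -/
def Col (c : List ℕ) (i : ℕ) (z : ℕ → ℕ) : Prop :=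
  ∀ k, Nat.pair i (k + 1) < c.length → c.getD (Nat.pair i (k + 1)) 0 = z k

theorem isClosed_Col (c : List ℕ) (i : ℕ) : IsClosed {z | Col c i z} := by
  have h : {z : ℕ → ℕ | Col c i z} = ⋂ k, {z : ℕ → ℕ | Nat.pair i (k + 1) < c.length →
      c.getD (Nat.pair i (k + 1)) 0 = z k} := by
    ext z
    simp [Col]
  rw [h]
  apply isClosed_iInter
  intro k
  by_cases hk : Nat.pair i (k + 1) < c.length
  · have h2 : {z : ℕ → ℕ | Nat.pair i (k + 1) < c.length →
      c.getD (Nat.pair i (k + 1)) 0 = z k} = {z : ℕ → ℕ | c.getD (Nat.pair i (k + 1)) 0 = z k} := by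
      ext z
      simp [hk]
    rw [h2]
    exact isClosed_eq continuous_const (continuous_apply k)
  · have h2 : {z : ℕ → ℕ | Nat.pair i (k + 1) < c.length →
      c.getD (Nat.pair i (k + 1)) 0 = z k} = Set.univ := by
      ext z
      simp [hk]
    rw [h2]
    exact isClosed_univ

theorem exists_common {a : ℕ → List ℕ} (ha : ∀ n, a n <+: a (n + 1)) (c : List ℕ) (i : ℕ)
    (h : ∀ n, ∃ z ∈ cantorL (a n), Col c i z) : ∃ z, (∀ n, z ∈ cantorL (a n)) ∧ Col c i z := by
  obtain ⟨z, _, hz⟩ := exists_of_seq (fun n => cantorL (a n) ∩ {z | Col c i z})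
    (fun n => by
      obtain ⟨z, hz1, hz2⟩ := h n
      exact ⟨z, ⟨hz1, hz2⟩, hz1.1⟩)
    (fun n x hx => ⟨cantorL_anti (ha n) hx.1, hx.2⟩)
    (fun n => (isClosed_cantorL _).inter (isClosed_Col c i))
  exact ⟨z, fun n => (hz n).1, (hz 0).2⟩

/-- A finite part `c` of an enumeration is consistent with the name part `E`. -/
def ConsL (E c : List ℕ) : Prop :=
  (∀ j < c.length, c.getD j 0 ≤ 1) ∧
    ∀ i, Nat.pair i 0 < c.length → c.getD (Nat.pair i 0) 0 = 1 → ∃ z ∈ cantorL E, Col c i z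

end Q204.LL
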