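import Pool.Agent.Q204.LL.Top

set_option autoImplicit false

namespace Q204.LL

open Q204.WD

/-- Monotonicity in two and three arguments. -/
def Mono2 (K : List ℕ → List ℕ → List ℕ) : Prop :=
  ∀ a a' b b', a <+: a' → b <+: b' → K a b <+: K a' b'

def Mono3 (G : List ℕ → List ℕ → List ℕ → List ℕ) : Prop :=
  ∀ a a' b b' c c', a <+: a' → b <+: b' → c <+: c' → G a b c <+: G a' b' c'

section

variable (K1 : List ℕ → List ℕ) (K2 : List ℕ → List ℕ → List ℕ)
  (G : List ℕ → List ℕ → List ℕ → List ℕ)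

/-- Points of the first closed set. -/
def Ap (p : ℕ → ℕ) : Set (ℕ → ℕ) := {z | ∀ n, z ∈ cantorL (K1 (pre p n))}

/-- Sequences all of whose points lie in the first closed set. -/
def VV (p : ℕ → ℕ) : Set (ℕ → ℕ) :=
  {L | L ∈ Bits ∧ ∀ i, L (Nat.pair i 0) = 1 → (fun k => L (Nat.pair i (k + 1))) ∈ Ap K1 p}

/-- Violation of the statement with index `(c, n0)`. -/
def Vio (c : List ℕ) (n0 : ℕ) (a b : List ℕ) : Prop :=
  (n0 ≤ a.length ∧ (G (a.take n0) (b.take n0) c).head? ≠ some 1) ∨ ¬ ConsL (K2 a b) c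

def Phi (p : ℕ → ℕ) (c : List ℕ) (n0 : ℕ) : Set (ℕ → ℕ) :=
  {L | ∀ n, ¬ Vio K2 G c n0 (pre p n) (pre L n)}

/-- Agreement on the columns `< l`. -/
def Agree (l : ℕ) (L L' : ℕ → ℕ) : Prop := ∀ i < l, ∀ k, L (Nat.pair i k) = L' (Nat.pair i k)

def SS (c : List ℕ) (n0 l : ℕ) : Set (ℕ → ℕ) :=
  {p | ∃ L0 ∈ VV K1 p, ∀ L ∈ VV K1 p, Agree l L L0 → L ∈ Phi K2 G p c n0}

/-- Columns `i` of the finite sequence `b` that are switched on are consistent with `E`. -/
def VnL (E b : List ℕ) : Prop :=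
  ∀ i, Nat.pair i 0 < b.length → b.getD (Nat.pair i 0) 0 = 1 → ∃ z ∈ cantorL E, Col b i z

/-- The condition for the finite sequences `b` (part of `L0`) and `t` (part of `L`). -/
def CondT (c : List ℕ) (n0 l : ℕ) (p : ℕ → ℕ) (n : ℕ) (b t : List ℕ) : Prop :=
  Vio K2 G c n0 (pre p n) t → (∀ i < l, ∀ k, Nat.pair i k < n →
    t.getD (Nat.pair i k) 0 = b.getD (Nat.pair i k) 0) →
    ∃ i, l ≤ i ∧ Nat.pair i 0 < n ∧ t.getD (Nat.pair i 0) 0 = 1 ∧ ¬ ∃ z ∈ Ap K1 p, Col t i z

def Cond (c : List ℕ) (n0 l : ℕ) (p : ℕ → ℕ) (n : ℕ) (b : List ℕ) : Prop :=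
  ∀ t ∈ {t : List ℕ | ∃ L ∈ Bits, t = pre L n}, CondT K1 K2 G c n0 l p n b t

def Tn (p : ℕ → ℕ) (c : List ℕ) (n0 l n : ℕ) (b : List ℕ) : Prop :=
  VnL (K1 (pre p n)) b ∧ Cond K1 K2 G c n0 l p n b

def ON (c : List ℕ) (n0 l n : ℕ) : Set (ℕ → ℕ) :=
  {p | ∃ L0 ∈ Bits, ∀ n' ≤ n, Tn K1 K2 G p c n0 l n' (pre L0 n')}

variable {K1 K2 G}

theorem finite_patterns (n : ℕ) : {t : List ℕ | ∃ L ∈ Bits, t = pre L n}.Finite := by
  apply (Set.finite_range (fun f : Fin n → Fin 2 =>
    (List.range n).map (fun i => if h : i < n then (f ⟨i, h⟩ : ℕ) else 0))).subset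
  rintro t ⟨L, hL, rfl⟩
  refine ⟨fun i => ⟨L i, by have := hL i; omega⟩, ?_⟩
  apply List.map_congr_left
  intro i hi
  rw [List.mem_range] at hi
  simp [hi]

theorem isOpen_notExt (hK1 : Mono K1) (t : List ℕ) (i : ℕ) :
    IsOpen {p | ¬ ∃ z ∈ Ap K1 p, Col t i z} := by
  rw [isOpen_iff_pre]
  intro p hp
  have h1 : ∃ n, ¬ ∃ z ∈ cantorL (K1 (pre p n)), Col t i z := by
    by_contra hcon
    push Not at hcon
    apply hp
    obtain ⟨z, hz, hc⟩ := exists_common (a := fun n => K1 (pre p n))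
      (fun n => hK1 _ _ (pre_prefix (Nat.le_succ n))) t i hcon
    exact ⟨z, hz, hc⟩
  obtain ⟨n, hn⟩ := h1
  refine ⟨n, fun q hq => ?_⟩
  rintro ⟨z, hz, hc⟩
  apply hn
  rw [← hq]
  exact ⟨z, hz n, hc⟩

theorem isOpen_CondT (hK1 : Mono K1) (c : List ℕ) (n0 l n : ℕ) (b t : List ℕ) :
    IsOpen {p | CondT K1 K2 G c n0 l p n b t} := by
  by_cases hag : ∀ i < l, ∀ k, Nat.pair i k < n →
    t.getD (Nat.pair i k) 0 = b.getD (Nat.pair i k) 0
  · have h : {p | CondT K1 K2 G c n0 l p n b t} =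
        {p | ¬ Vio K2 G c n0 (pre p n) t} ∪ ⋃ i ∈ {i | l ≤ i ∧ Nat.pair i 0 < n ∧
          t.getD (Nat.pair i 0) 0 = 1}, {p | ¬ ∃ z ∈ Ap K1 p, Col t i z} := by
      ext p
      simp only [CondT, Set.mem_ofPred_eq, Set.mem_union, Set.mem_iUnion]
      constructor
      · intro hh
        by_cases hv : Vio K2 G c n0 (pre p n) t
        · right
          obtain ⟨i, h1, h2, h3, h4⟩ := hh hv hag
          exact ⟨i, ⟨h1, h2, h3⟩, h4⟩
        · left
          exact hv
      · rintro (hh | ⟨i, ⟨h1, h2, h3⟩, h4⟩)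
        · intro hv
          exact absurd hv hh
        · intro _ _
          exact ⟨i, h1, h2, h3, h4⟩
    rw [h]
    apply IsOpen.union
    · exact isOpen_pre (fun a => ¬ Vio K2 G c n0 a t) n
    · exact isOpen_biUnion (fun i _ => isOpen_notExt hK1 t i)
  · have h : {p | CondT K1 K2 G c n0 l p n b t} = Set.univ := by
      ext p
      simp only [CondT, Set.mem_ofPred_eq, Set.mem_univ, iff_true]
      intro _ h2
      exact absurd h2 hag
    rw [h]
    exact isOpen_univ

theorem isOpen_ON (hK1 : Mono K1) (c : List ℕ) (n0 l n : ℕ) : IsOpen (ON K1 K2 G c n0 l n) := by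
  have h : ON K1 K2 G c n0 l n = ⋃ L0 ∈ Bits, ⋂ n' ∈ Set.Iic n,
      {p | Tn K1 K2 G p c n0 l n' (pre L0 n')} := by
    ext p
    simp only [ON, Set.mem_ofPred_eq, Set.mem_iUnion, Set.mem_iInter, Set.mem_Iic, exists_prop]
  rw [h]
  refine isOpen_biUnion (fun L0 _ => ?_)
  refine Set.Finite.isOpen_biInter (Set.finite_Iic n) (fun n' _ => ?_)
  apply IsOpen.inter
  · exact isOpen_pre (fun a => VnL (K1 a) (pre L0 n')) n'
  · have h2 : {p | Cond K1 K2 G c n0 l p n' (pre L0 n')} =
        ⋂ t ∈ {t : List ℕ | ∃ L ∈ Bits, t = pre L n'},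
          {p | CondT K1 K2 G c n0 l p n' (pre L0 n') t} := by
      ext p
      simp only [Cond, Set.mem_ofPred_eq, Set.mem_iInter]
    show IsOpen {p | Cond K1 K2 G c n0 l p n' (pre L0 n')}
    rw [h2]
    exact Set.Finite.isOpen_biInter (finite_patterns n') (fun t _ => isOpen_CondT hK1 c n0 l n' _ t)

theorem pair_zero_le {i k : ℕ} : Nat.pair i 0 ≤ Nat.pair i k := by
  rcases Nat.eq_zero_or_pos k with h | h
  · rw [h]
  · exact (Nat.pair_lt_pair_right i h).le

theorem mem_Ap_of_col (hK1 : Mono K1) {p L0 : ℕ → ℕ} (hb : L0 ∈ Bits)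
    (h : ∀ n, VnL (K1 (pre p n)) (pre L0 n)) {i : ℕ} (hi : L0 (Nat.pair i 0) = 1) :
    (fun k => L0 (Nat.pair i (k + 1))) ∈ Ap K1 p := by
  intro t
  refine ⟨fun n => hb _, fun l hl heq => ?_⟩
  -- choose n large
  obtain ⟨n, hn1, hn2, hn3⟩ : ∃ n, t ≤ n ∧ Nat.pair i 0 < n ∧
      ∀ k < l.length, Nat.pair i (k + 1) < n := by
    refine ⟨t + Nat.pair i 0 + Nat.pair i (l.length + 1) + 1, by omega, by omega, ?_⟩
    intro k hk
    have : Nat.pair i (k + 1) < Nat.pair i (l.length + 1) := Nat.pair_lt_pair_right i (by omega)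
    omega
  obtain ⟨z, hz, hc⟩ := h n i (by simpa using hn2) (by rw [pre_getD _ _ _ hn2]; exact hi)
  have hmem : l ∈ exclL (K1 (pre p n)) := (hK1 _ _ (pre_prefix hn1)).subset hl
  apply hz.2 l hmem
  rw [heq]
  simp only [pre_length]
  apply pre_congr
  intro k hk
  have h1 := hc k (by simpa using hn3 k hk)
  rw [pre_getD _ _ _ (hn3 k hk)] at h1
  exact h1

theorem SS_eq (hK1 : Mono K1) (c : List ℕ) (n0 l : ℕ) :
    SS K1 K2 G c n0 l = ⋂ n, ON K1 K2 G c n0 l n := by
  ext p
  rw [Set.mem_iInter]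
  constructor
  · rintro ⟨L0, hL0, hall⟩ n
    refine ⟨L0, hL0.1, fun n' _ => ⟨?_, ?_⟩⟩
    · intro i hi h1
      rw [pre_length] at hi
      rw [pre_getD _ _ _ hi] at h1
      refine ⟨_, hL0.2 i h1 n', ?_⟩
      intro k hk
      rw [pre_length] at hk
      exact pre_getD _ _ _ hk
    · rintro t ⟨L, hL, rfl⟩ hv hag
      by_contra hcon
      push Not at hcon
      -- the modified sequence
      classical
      have hz : ∀ i, ∃ z : ℕ → ℕ, (l ≤ i → Nat.pair i 0 < n' → L (Nat.pair i 0) = 1 →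
          z ∈ Ap K1 p ∧ Col (pre L n') i z) := by
        intro i
        by_cases h : l ≤ i ∧ Nat.pair i 0 < n' ∧ L (Nat.pair i 0) = 1
        · obtain ⟨z, hz1, hz2⟩ := hcon i h.1 h.2.1 (by rw [pre_getD _ _ _ h.2.1]; exact h.2.2)
          exact ⟨z, fun _ _ _ => ⟨hz1, hz2⟩⟩
        · refine ⟨fun _ => 0, fun h1 h2 h3 => absurd ⟨h1, h2, h3⟩ h⟩
      choose z hz using hz
      let L' : ℕ → ℕ := fun j =>
        if (Nat.unpair j).1 < l then L0 j
        else if Nat.pair (Nat.unpair j).1 0 < n' then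
          (if L (Nat.pair (Nat.unpair j).1 0) = 1 then
            (if (Nat.unpair j).2 = 0 then 1 else z (Nat.unpair j).1 ((Nat.unpair j).2 - 1))
          else L j)
        else 0
      have hL'1 : ∀ i k, i < l → L' (Nat.pair i k) = L0 (Nat.pair i k) := by
        intro i k hi
        simp only [L', Nat.unpair_pair, hi, if_true]
      have hL'2 : ∀ i k, l ≤ i → Nat.pair i 0 < n' → L (Nat.pair i 0) = 1 →
          L' (Nat.pair i k) = if k = 0 then 1 else z i (k - 1) := by
        intro i k hi h2 h3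
        simp only [L', Nat.unpair_pair, not_lt.2 hi, if_false, h2, if_true, h3]
      have hL'3 : ∀ i k, l ≤ i → Nat.pair i 0 < n' → L (Nat.pair i 0) ≠ 1 →
          L' (Nat.pair i k) = L (Nat.pair i k) := by
        intro i k hi h2 h3
        simp only [L', Nat.unpair_pair, not_lt.2 hi, if_false, h2, if_true, h3]
      have hL'4 : ∀ i k, l ≤ i → ¬ Nat.pair i 0 < n' → L' (Nat.pair i k) = 0 := by
        intro i k hi h2
        simp only [L', Nat.unpair_pair, not_lt.2 hi, if_false, h2]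
      have hbits : L' ∈ Bits := by
        intro j
        obtain ⟨i, k, rfl⟩ : ∃ i k, j = Nat.pair i k :=
          ⟨_, _, (Nat.pair_unpair j).symm⟩
        by_cases hi : i < l
        · rw [hL'1 i k hi]
          exact hL0.1 _
        · push Not at hi
          by_cases h2 : Nat.pair i 0 < n'
          · by_cases h3 : L (Nat.pair i 0) = 1
            · rw [hL'2 i k hi h2 h3]
              split_ifs
              · exact le_rfl
              · exact ((hz i hi h2 h3).1 0).1 _
            · rw [hL'3 i k hi h2 h3]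
              exact hL _
          · rw [hL'4 i k hi h2]
            exact Nat.zero_le _
      have hVV : L' ∈ VV K1 p := by
        refine ⟨hbits, fun i h1 => ?_⟩
        by_cases hi : i < l
        · have h4 : (fun k => L' (Nat.pair i (k + 1))) = fun k => L0 (Nat.pair i (k + 1)) := by
            funext k
            exact hL'1 i _ hi
          rw [h4]
          apply hL0.2 i
          rw [← hL'1 i 0 hi]
          exact h1
        · push Not at hi
          by_cases h2 : Nat.pair i 0 < n'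
          · by_cases h3 : L (Nat.pair i 0) = 1
            · have h4 : (fun k => L' (Nat.pair i (k + 1))) = z i := by
                funext k
                rw [hL'2 i _ hi h2 h3]
                simp
              rw [h4]
              exact (hz i hi h2 h3).1
            · rw [hL'3 i 0 hi h2 h3] at h1
              exact absurd h1 h3
          · rw [hL'4 i 0 hi h2] at h1
            exact absurd h1 (by norm_num)
      have hPhi := hall L' hVV (fun i hi k => hL'1 i k hi)
      apply hPhi n'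
      have hpre : pre L' n' = pre L n' := by
        apply pre_congr
        intro j hj
        obtain ⟨i, k, rfl⟩ : ∃ i k, j = Nat.pair i k :=
          ⟨_, _, (Nat.pair_unpair j).symm⟩
        by_cases hi : i < l
        · rw [hL'1 i k hi]
          have := hag i hi k hj
          rw [pre_getD _ _ _ hj, pre_getD _ _ _ hj] at this
          exact this.symm
        · push Not at hi
          have h2 : Nat.pair i 0 < n' := lt_of_le_of_lt pair_zero_le hj
          by_cases h3 : L (Nat.pair i 0) = 1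
          · rw [hL'2 i k hi h2 h3]
            split_ifs with hk
            · rw [hk]
              exact h3.symm
            · obtain ⟨k', rfl⟩ := Nat.exists_eq_succ_of_ne_zero hk
              have h5 := (hz i hi h2 h3).2 k' (by simpa using hj)
              rw [pre_getD _ _ _ hj] at h5
              exact h5.symm
          · exact hL'3 i k hi h2 h3
      rw [hpre]
      exact hv
  · intro hp
    obtain ⟨L0, hb, hL0⟩ := exists_of_seq
      (fun n => {L0 | ∀ n' ≤ n, Tn K1 K2 G p c n0 l n' (pre L0 n')})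
      (fun n => by
        obtain ⟨L0, h1, h2⟩ := hp n
        exact ⟨L0, h2, h1⟩)
      (fun n x hx n' hn' => hx n' (by omega))
      (fun n => by
        have h : {L0 | ∀ n' ≤ n, Tn K1 K2 G p c n0 l n' (pre L0 n')} =
          ⋂ n' ∈ Set.Iic n, {L0 | Tn K1 K2 G p c n0 l n' (pre L0 n')} := by
          ext x
          simp
        rw [h]
        exact isClosed_biInter (fun n' _ => isClosed_pre (fun b => Tn K1 K2 G p c n0 l n' b) n'))
    have hT : ∀ n, Tn K1 K2 G p c n0 l n (pre L0 n) := fun n => hL0 n n le_rfl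
    have hVV : L0 ∈ VV K1 p :=
      ⟨hb, fun i hi => mem_Ap_of_col hK1 hb (fun n => (hT n).1) hi⟩
    refine ⟨L0, hVV, fun L hL hag n hv => ?_⟩
    obtain ⟨i, hi1, hi2, hi3, hi4⟩ := (hT n).2 (pre L n) ⟨L, hL.1, rfl⟩ hv (by
      intro i hi k hk
      rw [pre_getD _ _ _ hk, pre_getD _ _ _ hk]
      exact hag i hi k)
    apply hi4
    rw [pre_getD _ _ _ hi2] at hi3
    refine ⟨_, hL.2 i hi3, ?_⟩
    intro k hk
    rw [pre_length] at hk
    exact pre_getD _ _ _ hk

end

end Q204.LL
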