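import Pool.Agent.Q204.WD.Defs

set_option autoImplicit false

/-!
# Unique choice on Baire space and the listing problem on Cantor space
-/

namespace Q204.LL

open Q204.WD

/-- The closed subset of Baire space named by `p`: the complement of the union of all cylinders
`[l]` whose code `encode l + 1` occurs in `p` (other values of `p` carry no information). -/
def closedOf (p : ℕ → ℕ) : Set (ℕ → ℕ) :=
  {x | ∀ (n : ℕ) (l : List ℕ), p n = Encodable.encode l + 1 → l ≠ pre x l.length}

/-- The closed subset of Cantor space named by `p`. -/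
def cantorOf (p : ℕ → ℕ) : Set (ℕ → ℕ) := {x | x ∈ closedOf p ∧ ∀ n, x n ≤ 1}

/-- Unique choice on Baire space: given a closed set with exactly one element, find the element. -/
def UC : Problem := fun p => {x | closedOf p = {x}}

/-- The listing problem on Cantor space: given a countable closed `A`, find a sequence
`(b_i, x_i)` in `{0,1} × {0,1}^ℕ` with `A = {x_i : b_i = 1}`.  The sequence is coded by `s` with
`b_i = s ⟨i, 0⟩` and `x_i k = s ⟨i, k + 1⟩`. -/
def ListC : Problem := fun p => {s | (∀ n, s n ≤ 1) ∧
  {x | ∃ i, s (Nat.pair i 0) = 1 ∧ x = fun k => s (Nat.pair i (k + 1))} = cantorOf p}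

/-- `h` is (a problem of the degree of) the compositional product `f ⋆ g`: its degree is the maximum
of the degrees of `f₀ ∘ g₀` over all `f₀ ≤ f` and `g₀ ≤ g`. -/
def IsStar (f g h : Problem) : Prop :=
  (∃ f₀ g₀, WRed f₀ f ∧ WRed g₀ g ∧ WEquiv h (comp f₀ g₀)) ∧
    ∀ f₀ g₀, WRed f₀ f → WRed g₀ g → WRed (comp f₀ g₀) h

end Q204.LL
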