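import Pool.Agent.Q204.LL.Top
import Pool.Agent.Q204.LL.Defs

set_option autoImplicit false

/-!
# A closed singleton that knows whether its name lies in a given `G_δσ` set
-/

namespace Q204.LL

open Q204.WD

section

variable (U : ℕ → ℕ → Set (ℕ → ℕ))

/-- The finite sequence `l` is an initial segment only of elements of `U a s`. -/
def Dq (a s : ℕ) (l : List ℕ) : Prop := ∀ q : ℕ → ℕ, pre q l.length = l → q ∈ U a s

/-- The evidence for the truth values of `p ∈ U a s`. -/
def e2 (x : ℕ → ℕ) (a s : ℕ) : ℕ := x (2 * Nat.pair a s + 3)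

def e1 (x : ℕ → ℕ) (a : ℕ) : ℕ := x (2 * a + 2)

/-- The conditions on the evidence `x` for `p`. -/
structure CC (p x : ℕ → ℕ) : Prop where
  c2 : ∀ a s, (e2 x a s = 0 → ∀ t, ¬ Dq U a s (pre p t)) ∧
    ∀ t, e2 x a s = t + 1 → Dq U a s (pre p t) ∧ ∀ t' < t, ¬ Dq U a s (pre p t')
  c1 : ∀ a, (e1 x a = 0 → ∀ s, e2 x a s ≠ 0) ∧
    ∀ s, e1 x a = s + 1 → e2 x a s = 0 ∧ ∀ s' < s, e2 x a s' ≠ 0
  c0 : (x 1 = 0 → ∀ a, e1 x a ≠ 0) ∧ ∀ a, x 1 = a + 1 → e1 x a = 0 ∧ ∀ a' < a, e1 x a' ≠ 0
  cv : x 0 = if x 1 = 0 then 1 else 0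

/-- Least-witness evidence for `∃ n, P n`. -/
theorem exists_ev (P : ℕ → Prop) : ∃! e : ℕ, (e = 0 → ∀ n, ¬ P n) ∧
    ∀ n, e = n + 1 → P n ∧ ∀ m < n, ¬ P m := by
  classical
  by_cases h : ∃ n, P n
  · refine ⟨Nat.find h + 1, ⟨fun h0 => absurd h0 (Nat.succ_ne_zero _), fun n hn => ?_⟩, ?_⟩
    · have hn' : Nat.find h = n := by omega
      subst hn'
      exact ⟨Nat.find_spec h, fun m hm => Nat.find_min h hm⟩
    · rintro e ⟨h0, h1⟩
      rcases e with _ | n
      · exact absurd (Nat.find_spec h) (h0 rfl _)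
      · obtain ⟨h2, h3⟩ := h1 n rfl
        have h4 : Nat.find h ≤ n := Nat.find_min' h h2
        have h5 : ¬ Nat.find h < n := fun h6 => h3 _ h6 (Nat.find_spec h)
        omega
  · push Not at h
    refine ⟨0, ⟨fun _ => h, fun n hn => absurd hn.symm (Nat.succ_ne_zero n)⟩, ?_⟩
    rintro e ⟨_, h1⟩
    rcases e with _ | n
    · rfl
    · exact absurd (h1 n rfl).1 (h n)

theorem ev_iff {P : ℕ → Prop} {e : ℕ} (he : (e = 0 → ∀ n, ¬ P n) ∧
    ∀ n, e = n + 1 → P n ∧ ∀ m < n, ¬ P m) : e ≠ 0 ↔ ∃ n, P n := by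
  constructor
  · intro h
    obtain ⟨n, rfl⟩ := Nat.exists_eq_succ_of_ne_zero h
    exact ⟨n, (he.2 n rfl).1⟩
  · rintro ⟨n, hn⟩ h0
    exact he.1 h0 n hn

theorem exists_CC (p : ℕ → ℕ) : ∃ x, CC U p x := by
  classical
  choose f2 hf2 _ using fun (a s : ℕ) => exists_ev (fun t => Dq U a s (pre p t))
  choose f1 hf1 _ using fun (a : ℕ) => exists_ev (fun s => f2 a s = 0)
  obtain ⟨f0, hf0, -⟩ := exists_ev (fun a => f1 a = 0)
  let x : ℕ → ℕ := fun n =>
    if n = 0 then (if f0 = 0 then 1 else 0) else if n = 1 then f0 else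
    if n % 2 = 0 then f1 ((n - 2) / 2) else
      f2 (Nat.unpair ((n - 3) / 2)).1 (Nat.unpair ((n - 3) / 2)).2
  have x0 : x 0 = if f0 = 0 then 1 else 0 := by simp only [x, if_true]
  have x1 : x 1 = f0 := by simp [x]
  have hx1 : ∀ a, e1 x a = f1 a := by
    intro a
    have h1 : 2 * a + 2 ≠ 0 := by omega
    have h2 : 2 * a + 2 ≠ 1 := by omega
    have h3 : (2 * a + 2) % 2 = 0 := by omega
    have h4 : (2 * a + 2 - 2) / 2 = a := by omega
    simp only [e1, x, h1, h2, h3, h4, if_false, if_true]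
  have hx2 : ∀ a s, e2 x a s = f2 a s := by
    intro a s
    have h1 : 2 * Nat.pair a s + 3 ≠ 0 := by omega
    have h2 : 2 * Nat.pair a s + 3 ≠ 1 := by omega
    have h3 : ¬ (2 * Nat.pair a s + 3) % 2 = 0 := by omega
    have h4 : (2 * Nat.pair a s + 3 - 3) / 2 = Nat.pair a s := by omega
    simp only [e2, x, h1, h2, h3, h4, if_false, Nat.unpair_pair]
  refine ⟨x, ⟨?_, ?_, ?_, ?_⟩⟩
  · intro a s
    rw [hx2]
    exact hf2 a s
  · intro a
    rw [hx1]
    simp only [hx2]
    exact hf1 a
  · simp only [hx1, x1]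
    exact hf0
  · rw [x0, x1]

theorem CC_unique {p x y : ℕ → ℕ} (hx : CC U p x) (hy : CC U p y) : x = y := by
  have h2 : ∀ a s, e2 x a s = e2 y a s := by
    intro a s
    obtain ⟨e, -, he⟩ := exists_ev (fun t => Dq U a s (pre p t))
    rw [he _ (hx.c2 a s), he _ (hy.c2 a s)]
  have h1 : ∀ a, e1 x a = e1 y a := by
    intro a
    obtain ⟨e, -, he⟩ := exists_ev (fun s => e2 x a s = 0)
    rw [he _ (hx.c1 a)]
    symm
    apply he
    have := hy.c1 a
    simp only [← h2] at this
    exact this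
  have h0 : x 1 = y 1 := by
    obtain ⟨e, -, he⟩ := exists_ev (fun a => e1 x a = 0)
    rw [he _ hx.c0]
    symm
    apply he
    have := hy.c0
    simp only [← h1] at this
    exact this
  funext n
  rcases n with _ | _ | n
  · rw [hx.cv, hy.cv, h0]
  · exact h0
  · rcases Nat.even_or_odd' n with ⟨a, rfl | rfl⟩
    · exact h1 a
    · have := h2 (Nat.unpair a).1 (Nat.unpair a).2
      simp only [e2, Nat.pair_unpair] at this
      exact this

/-- If the conditions fail then this is visible from finite parts. -/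
theorem CC_closed {p x : ℕ → ℕ} (h : ¬ CC U p x) :
    ∃ n, ∀ q y, pre q n = pre p n → pre y n = pre x n → ¬ CC U q y := by
  classical
  -- a general remark: it suffices to find a bound on the positions used
  by_cases h2 : ∀ a s, (e2 x a s = 0 → ∀ t, ¬ Dq U a s (pre p t)) ∧
    ∀ t, e2 x a s = t + 1 → Dq U a s (pre p t) ∧ ∀ t' < t, ¬ Dq U a s (pre p t')
  · by_cases h1 : ∀ a, (e1 x a = 0 → ∀ s, e2 x a s ≠ 0) ∧
      ∀ s, e1 x a = s + 1 → e2 x a s = 0 ∧ ∀ s' < s, e2 x a s' ≠ 0
    · by_cases h0 : (x 1 = 0 → ∀ a, e1 x a ≠ 0) ∧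
        ∀ a, x 1 = a + 1 → e1 x a = 0 ∧ ∀ a' < a, e1 x a' ≠ 0
      · -- failure of cv
        have hv : x 0 ≠ if x 1 = 0 then 1 else 0 := fun hv => h ⟨h2, h1, h0, hv⟩
        refine ⟨2, fun q y _ hy hC => hv ?_⟩
        rw [← pre_eq_iff.1 hy 0 (by omega), ← pre_eq_iff.1 hy 1 (by omega)]
        exact hC.cv
      · -- failure of c0
        rcases not_and_or.1 h0 with h0 | h0
        · push Not at h0
          obtain ⟨hx1, a, ha⟩ := h0
          refine ⟨2 * a + 3, fun q y _ hy hC => ?_⟩
          have e1' : y 1 = x 1 := pre_eq_iff.1 hy 1 (by omega)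
          have e2' : e1 y a = e1 x a := pre_eq_iff.1 hy (2 * a + 2) (by omega)
          exact hC.c0.1 (by rw [e1', hx1]) a (by rw [e2', ha])
        · push Not at h0
          obtain ⟨a, ha, hb⟩ := h0
          by_cases hea : e1 x a = 0
          · obtain ⟨a', ha', hb'⟩ := hb hea
            refine ⟨2 * a + 3, fun q y _ hy hC => ?_⟩
            have e1' : y 1 = x 1 := pre_eq_iff.1 hy 1 (by omega)
            have e2' : e1 y a' = e1 x a' := pre_eq_iff.1 hy (2 * a' + 2) (by omega)
            exact (hC.c0.2 a (by rw [e1', ha])).2 a' ha' (by rw [e2', hb'])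
          · refine ⟨2 * a + 3, fun q y _ hy hC => ?_⟩
            have e1' : y 1 = x 1 := pre_eq_iff.1 hy 1 (by omega)
            have e2' : e1 y a = e1 x a := pre_eq_iff.1 hy (2 * a + 2) (by omega)
            exact hea (by rw [← e2']; exact (hC.c0.2 a (by rw [e1', ha])).1)
    · -- failure of c1
      push Not at h1
      obtain ⟨a, ha⟩ := h1
      by_cases hh : e1 x a = 0 → ∀ s, e2 x a s ≠ 0
      · obtain ⟨s, hs, hb⟩ := ha hh
        by_cases hes : e2 x a s = 0
        · obtain ⟨s', hs', hb'⟩ := hb hes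
          have hlt : Nat.pair a s' < Nat.pair a s := Nat.pair_lt_pair_right a hs'
          refine ⟨2 * a + 2 * Nat.pair a s + 4, fun q y _ hy hC => ?_⟩
          have e1' : e1 y a = e1 x a := pre_eq_iff.1 hy (2 * a + 2) (by omega)
          have e2' : e2 y a s' = e2 x a s' :=
            pre_eq_iff.1 hy (2 * Nat.pair a s' + 3) (by omega)
          exact ((hC.c1 a).2 s (by rw [e1', hs])).2 s' hs' (by rw [e2', hb'])
        · refine ⟨2 * a + 2 * Nat.pair a s + 4, fun q y _ hy hC => ?_⟩
          have e1' : e1 y a = e1 x a := pre_eq_iff.1 hy (2 * a + 2) (by omega)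
          have e2' : e2 y a s = e2 x a s :=
            pre_eq_iff.1 hy (2 * Nat.pair a s + 3) (by omega)
          exact hes (by rw [← e2']; exact ((hC.c1 a).2 s (by rw [e1', hs])).1)
      · push Not at hh
        obtain ⟨h3, s, hs⟩ := hh
        refine ⟨2 * a + 2 * Nat.pair a s + 4, fun q y _ hy hC => ?_⟩
        have e1' : e1 y a = e1 x a := pre_eq_iff.1 hy (2 * a + 2) (by omega)
        have e2' : e2 y a s = e2 x a s :=
          pre_eq_iff.1 hy (2 * Nat.pair a s + 3) (by omega)
        exact (hC.c1 a).1 (by rw [e1', h3]) s (by rw [e2', hs])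
  · -- failure of c2
    push Not at h2
    obtain ⟨a, s, ha⟩ := h2
    have hpq : ∀ {q : ℕ → ℕ} {n t : ℕ}, pre q n = pre p n → t ≤ n → pre q t = pre p t := by
      intro q n t hq ht
      exact pre_congr (fun i hi => pre_eq_iff.1 hq i (by omega))
    by_cases hh : e2 x a s = 0 → ∀ t, ¬ Dq U a s (pre p t)
    · obtain ⟨t, ht, hb⟩ := ha hh
      by_cases hD : Dq U a s (pre p t)
      · obtain ⟨t', ht', hb'⟩ := hb hD
        refine ⟨2 * Nat.pair a s + 4 + t, fun q y hq hy hC => ?_⟩
        have e2' : e2 y a s = e2 x a s :=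
          pre_eq_iff.1 hy (2 * Nat.pair a s + 3) (by omega)
        apply ((hC.c2 a s).2 t (by rw [e2', ht])).2 t' ht'
        rw [hpq hq (by omega)]
        exact hb'
      · refine ⟨2 * Nat.pair a s + 4 + t, fun q y hq hy hC => ?_⟩
        have e2' : e2 y a s = e2 x a s :=
          pre_eq_iff.1 hy (2 * Nat.pair a s + 3) (by omega)
        apply hD
        rw [← hpq hq (show t ≤ _ by omega)]
        exact ((hC.c2 a s).2 t (by rw [e2', ht])).1
    · push Not at hh
      obtain ⟨h3, t, ht⟩ := hh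
      refine ⟨2 * Nat.pair a s + 4 + t, fun q y hq hy hC => ?_⟩
      have e2' : e2 y a s = e2 x a s :=
        pre_eq_iff.1 hy (2 * Nat.pair a s + 3) (by omega)
      apply (hC.c2 a s).1 (by rw [e2', h3]) t
      rw [hpq hq (by omega)]
      exact ht

/-- The pair of finite sequences refutes the conditions. -/
def Refuted (l a : List ℕ) : Prop :=
  ∀ q y, pre q a.length = a → pre y l.length = l → ¬ CC U q y

open Classical in
/-- The value of the name at `n`, given the previous values. -/
noncomputable def nameStep (n : ℕ) (a : List ℕ) : ℕ :=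
  match (Encodable.decode (Nat.unpair n).1 : Option (List ℕ)) with
  | none => 0
  | some l => if Refuted U l a then Encodable.encode l + 1 else 0

noncomputable def nameL : ℕ → List ℕ
  | 0 => []
  | n + 1 => nameL n ++ [nameStep U n (nameL n)]

/-- The self-referential name. -/
noncomputable def name (n : ℕ) : ℕ := nameStep U n (nameL U n)

theorem pre_name (n : ℕ) : pre (name U) n = nameL U n := by
  induction n with
  | zero => rfl
  | succ n ih =>
    rw [pre_succ, ih]
    rfl

theorem name_eq (n : ℕ) : name U n = nameStep U n (pre (name U) n) := by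
  rw [pre_name]
  rfl

theorem name_spec (l : List ℕ) (k : ℕ) (h : Refuted U l (pre (name U) (Nat.pair (Encodable.encode l) k))) :
    name U (Nat.pair (Encodable.encode l) k) = Encodable.encode l + 1 := by
  rw [name_eq]
  unfold nameStep
  rw [Nat.unpair_pair]
  simp only [Encodable.encodek]
  rw [if_pos h]

theorem name_refuted {n : ℕ} {l : List ℕ} (h : name U n = Encodable.encode l + 1) :
    Refuted U l (pre (name U) n) := by
  rw [name_eq] at h
  unfold nameStep at h
  rcases hd : (Encodable.decode (Nat.unpair n).1 : Option (List ℕ)) with _ | l'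
  · rw [hd] at h
    simp at h
  · rw [hd] at h
    simp only at h
    split_ifs at h with hr
    · have : Encodable.encode l' = Encodable.encode l := by omega
      rw [← Encodable.encode_injective this]
      exact hr

theorem closedOf_name : closedOf (name U) = {x | CC U (name U) x} := by
  ext x
  constructor
  · intro hx
    by_contra hcon
    obtain ⟨n0, hn0⟩ := CC_closed U hcon
    have hm : n0 ≤ Nat.pair (Encodable.encode (pre x n0)) n0 := Nat.right_le_pair _ _
    have hR : Refuted U (pre x n0)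
        (pre (name U) (Nat.pair (Encodable.encode (pre x n0)) n0)) := by
      intro q y hq hy
      rw [pre_length] at hq hy
      apply hn0 q y _ hy
      exact pre_congr (fun i hi => pre_eq_iff.1 hq i (by omega))
    have h1 := name_spec U _ _ hR
    exact hx _ _ h1 (by simp)
  · intro hx n l hl heq
    exact name_refuted U hl (name U) x (by simp) heq.symm hx

theorem exists_self (hU : ∀ a s, IsOpen (U a s)) :
    ∃ p x, closedOf p = {x} ∧ (x 0 = 1 ↔ p ∉ ⋃ a, ⋂ s, U a s) := by
  obtain ⟨x, hx⟩ := exists_CC U (name U)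
  refine ⟨name U, x, ?_, ?_⟩
  · rw [closedOf_name]
    ext y
    constructor
    · intro hy
      exact CC_unique U hy hx
    · intro hy
      rw [Set.mem_singleton_iff] at hy
      rw [hy]
      exact hx
  · have k2 : ∀ a s, e2 x a s ≠ 0 ↔ name U ∈ U a s := by
      intro a s
      rw [ev_iff (hx.c2 a s)]
      constructor
      · rintro ⟨t, ht⟩
        exact ht (name U) (by simp)
      · intro h
        obtain ⟨n, hn⟩ := isOpen_iff_pre.1 (hU a s) _ h
        refine ⟨n, fun q hq => hn q ?_⟩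
        simpa using hq
    have k1 : ∀ a, e1 x a = 0 ↔ name U ∈ ⋂ s, U a s := by
      intro a
      have := ev_iff (P := fun s => e2 x a s = 0) (hx.c1 a)
      rw [Set.mem_iInter]
      constructor
      · intro h s
        rw [← k2]
        intro h0
        exact (this.2 ⟨s, h0⟩) h
      · intro h
        by_contra hne
        obtain ⟨s, hs⟩ := this.1 hne
        exact (k2 a s).2 (h s) hs
    have k0 : x 1 ≠ 0 ↔ name U ∈ ⋃ a, ⋂ s, U a s := by
      rw [ev_iff (P := fun a => e1 x a = 0) hx.c0, Set.mem_iUnion]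
      exact exists_congr k1
    rw [hx.cv, ← k0]
    split_ifs with h
    · simp [h]
    · simp [h]

end

end Q204.LL
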