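import Pool.Agent.Q204.LL.Core
import Pool.Agent.Q204.LL.Defs

set_option autoImplicit false

namespace Q204.LL

open Q204.WD

theorem mem_cantorOf_iff {a : ℕ → List ℕ} {P : ℕ → ℕ} (h : Conv a P) (z : ℕ → ℕ) :
    z ∈ cantorOf P ↔ ∀ n, z ∈ cantorL (a n) := by
  constructor
  · rintro ⟨h1, h2⟩ n
    refine ⟨h2, fun l hl => ?_⟩
    have h3 : Encodable.encode l + 1 ∈ a n := hl
    rw [h.1 n] at h3
    simp only [pre, List.mem_map, List.mem_range] at h3
    obtain ⟨i, _, hi⟩ := h3
    exact h1 i l hi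
  · intro hz
    refine ⟨fun n l hl => ?_, (hz 0).1⟩
    obtain ⟨N, hN⟩ := h.2 (n + 1)
    apply (hz N).2 l
    show Encodable.encode l + 1 ∈ a N
    rw [h.1 N]
    simp only [pre, List.mem_map, List.mem_range]
    exact ⟨n, hN N le_rfl, hl⟩

/-- The set enumerated by `L`. -/
def Rg (L : ℕ → ℕ) : Set (ℕ → ℕ) :=
  {x | ∃ i, L (Nat.pair i 0) = 1 ∧ x = fun k => L (Nat.pair i (k + 1))}

theorem exists_valid {B : Set (ℕ → ℕ)} (hB : B.Countable) (hBb : B ⊆ Bits) (L0 : ℕ → ℕ)
    (hb : L0 ∈ Bits) (l : ℕ)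
    (h : ∀ i < l, L0 (Nat.pair i 0) = 1 → (fun k => L0 (Nat.pair i (k + 1))) ∈ B) :
    ∃ L ∈ Bits, Agree l L L0 ∧ Rg L = B := by
  classical
  rcases Set.eq_empty_or_nonempty B with hem | hne
  · let L : ℕ → ℕ := fun j => if (Nat.unpair j).1 < l then L0 j else 0
    have h1 : ∀ i k, i < l → L (Nat.pair i k) = L0 (Nat.pair i k) := by
      intro i k hi
      simp only [L, Nat.unpair_pair, hi, if_true]
    have h2 : ∀ i k, l ≤ i → L (Nat.pair i k) = 0 := by
      intro i k hi
      simp only [L, Nat.unpair_pair, not_lt.2 hi, if_false]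
    refine ⟨L, ?_, fun i hi k => h1 i k hi, ?_⟩
    · intro j
      simp only [L]
      split_ifs
      · exact hb j
      · exact Nat.zero_le _
    · rw [hem]
      apply Set.eq_empty_of_forall_notMem
      rintro x ⟨i, hi, -⟩
      by_cases hil : i < l
      · rw [h1 i 0 hil] at hi
        have := h i hil hi
        rw [hem] at this
        exact this
      · rw [h2 i 0 (by omega)] at hi
        exact absurd hi (by norm_num)
  · obtain ⟨f, hf⟩ := hB.exists_eq_range hne
    let L : ℕ → ℕ := fun j => if (Nat.unpair j).1 < l then L0 j else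
      if (Nat.unpair j).2 = 0 then 1 else f ((Nat.unpair j).1 - l) ((Nat.unpair j).2 - 1)
    have h1 : ∀ i k, i < l → L (Nat.pair i k) = L0 (Nat.pair i k) := by
      intro i k hi
      simp only [L, Nat.unpair_pair, hi, if_true]
    have h2 : ∀ i, l ≤ i → L (Nat.pair i 0) = 1 := by
      intro i hi
      simp only [L, Nat.unpair_pair, not_lt.2 hi, if_false, if_true]
    have h3 : ∀ i k, l ≤ i → L (Nat.pair i (k + 1)) = f (i - l) k := by
      intro i k hi
      simp only [L, Nat.unpair_pair, not_lt.2 hi, if_false, Nat.succ_ne_zero, Nat.add_sub_cancel]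
    refine ⟨L, ?_, fun i hi k => h1 i k hi, ?_⟩
    · intro j
      simp only [L]
      split_ifs
      · exact hb j
      · exact le_rfl
      · have h4 : f ((Nat.unpair j).1 - l) ∈ B := by
          rw [hf]
          exact ⟨_, rfl⟩
        exact hBb h4 _
    · ext x
      constructor
      · rintro ⟨i, hi, rfl⟩
        by_cases hil : i < l
        · have h4 : (fun k => L (Nat.pair i (k + 1))) = fun k => L0 (Nat.pair i (k + 1)) := by
            funext k
            exact h1 i _ hil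
          rw [h4]
          apply h i hil
          rw [← h1 i 0 hil]
          exact hi
        · have h4 : (fun k => L (Nat.pair i (k + 1))) = f (i - l) := by
            funext k
            exact h3 i k (by omega)
          rw [h4, hf]
          exact ⟨_, rfl⟩
      · intro hx
        rw [hf] at hx
        obtain ⟨j, rfl⟩ := hx
        refine ⟨j + l, h2 _ (by omega), ?_⟩
        funext k
        rw [h3 _ _ (by omega)]
        simp

theorem exists_valid_list {B : Set (ℕ → ℕ)} (hB : B.Countable) (hBb : B ⊆ Bits) (c : List ℕ)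
    (hc : ∀ j < c.length, c.getD j 0 ≤ 1)
    (h : ∀ i, Nat.pair i 0 < c.length → c.getD (Nat.pair i 0) 0 = 1 → ∃ z ∈ B, Col c i z) :
    ∃ L ∈ Bits, pre L c.length = c ∧ Rg L = B := by
  classical
  have hz : ∀ i, ∃ z : ℕ → ℕ, (Nat.pair i 0 < c.length → c.getD (Nat.pair i 0) 0 = 1 →
      z ∈ B ∧ Col c i z) := by
    intro i
    by_cases h1 : Nat.pair i 0 < c.length ∧ c.getD (Nat.pair i 0) 0 = 1
    · obtain ⟨z, hz1, hz2⟩ := h i h1.1 h1.2
      exact ⟨z, fun _ _ => ⟨hz1, hz2⟩⟩
    · exact ⟨fun _ => 0, fun h2 h3 => absurd ⟨h2, h3⟩ h1⟩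
  choose z hz using hz
  let L0 : ℕ → ℕ := fun j =>
    if Nat.pair (Nat.unpair j).1 0 < c.length ∧ c.getD (Nat.pair (Nat.unpair j).1 0) 0 = 1 then
      (if (Nat.unpair j).2 = 0 then 1 else z (Nat.unpair j).1 ((Nat.unpair j).2 - 1))
    else c.getD j 0
  have hgetle : ∀ j, c.getD j 0 ≤ 1 := by
    intro j
    by_cases hj : j < c.length
    · exact hc j hj
    · rw [List.getD_eq_default _ _ (by omega)]
      exact Nat.zero_le _
  have h1 : ∀ i k, Nat.pair i 0 < c.length → c.getD (Nat.pair i 0) 0 = 1 →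
      L0 (Nat.pair i k) = if k = 0 then 1 else z i (k - 1) := by
    intro i k h2 h3
    have h23 : Nat.pair i 0 < c.length ∧ c.getD (Nat.pair i 0) 0 = 1 := ⟨h2, h3⟩
    simp only [L0, Nat.unpair_pair]
    rw [if_pos h23]
  have h2 : ∀ i k, ¬ (Nat.pair i 0 < c.length ∧ c.getD (Nat.pair i 0) 0 = 1) →
      L0 (Nat.pair i k) = c.getD (Nat.pair i k) 0 := by
    intro i k h2
    simp only [L0, Nat.unpair_pair]
    rw [if_neg h2]
  have hb : L0 ∈ Bits := by
    intro j
    obtain ⟨i, k, rfl⟩ : ∃ i k, j = Nat.pair i k := ⟨_, _, (Nat.pair_unpair j).symm⟩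
    by_cases h3 : Nat.pair i 0 < c.length ∧ c.getD (Nat.pair i 0) 0 = 1
    · rw [h1 i k h3.1 h3.2]
      split_ifs
      · exact le_rfl
      · exact hBb (hz i h3.1 h3.2).1 _
    · rw [h2 i k h3]
      exact hgetle _
  obtain ⟨L, hL1, hL2, hL3⟩ := exists_valid hB hBb L0 hb c.length (by
    intro i _ hi
    by_cases h3 : Nat.pair i 0 < c.length ∧ c.getD (Nat.pair i 0) 0 = 1
    · have h4 : (fun k => L0 (Nat.pair i (k + 1))) = z i := by
        funext k
        rw [h1 i _ h3.1 h3.2]
        simp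
      rw [h4]
      exact (hz i h3.1 h3.2).1
    · rw [h2 i 0 h3] at hi
      exfalso
      apply h3
      refine ⟨?_, hi⟩
      by_contra hlt
      rw [List.getD_eq_default _ _ (by omega)] at hi
      exact absurd hi (by norm_num))
  refine ⟨L, hL1, ?_, hL3⟩
  have h5 : pre L c.length = pre (fun j => c.getD j 0) c.length := by
    apply pre_congr
    intro j hj
    obtain ⟨i, k, rfl⟩ : ∃ i k, j = Nat.pair i k := ⟨_, _, (Nat.pair_unpair j).symm⟩
    have hi : i < c.length := lt_of_le_of_lt (Nat.left_le_pair i k) hj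
    rw [hL2 i hi k]
    by_cases h3 : Nat.pair i 0 < c.length ∧ c.getD (Nat.pair i 0) 0 = 1
    · rw [h1 i k h3.1 h3.2]
      split_ifs with hk
      · rw [hk]
        exact h3.2.symm
      · obtain ⟨k', rfl⟩ := Nat.exists_eq_succ_of_ne_zero hk
        exact ((hz i h3.1 h3.2).2 k' hj).symm
    · exact h2 i k h3
  rw [h5]
  apply List.ext_getElem
  · simp
  · intro i hi hi'
    rw [pre_getElem]
    exact List.getD_eq_getElem _ _ hi'

section

variable {K1 : List ℕ → List ℕ} {K2 : List ℕ → List ℕ → List ℕ}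
  {G : List ℕ → List ℕ → List ℕ → List ℕ}

/-- What we use of a reduction of unique choice to a composition. -/
structure Hyp (K1 : List ℕ → List ℕ) (K2 : List ℕ → List ℕ → List ℕ)
    (G : List ℕ → List ℕ → List ℕ → List ℕ) (p x : ℕ → ℕ) : Prop where
  mono1 : Mono K1
  mono2 : Mono2 K2
  mono3 : Mono3 G
  count : (Ap K1 p).Countable
  next : ∀ L ∈ Bits, Rg L = Ap K1 p → ∃ P2, Conv (fun n => K2 (pre p n) (pre L n)) P2 ∧
    (cantorOf P2).Countable ∧ ∀ L2 ∈ Bits, Rg L2 = cantorOf P2 →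
      Conv (fun n => G (pre p n) (pre L n) (pre L2 n)) x

theorem cantorOf_sub_Bits (P : ℕ → ℕ) : cantorOf P ⊆ Bits := fun _ hx => hx.2

theorem Ap_sub_Bits (p : ℕ → ℕ) : Ap K1 p ⊆ Bits := fun _ hx => (hx 0).1

theorem pre_take (p : ℕ → ℕ) {m n : ℕ} (h : m ≤ n) : (pre p n).take m = pre p m := by
  have h1 := pre_prefix (p := p) h
  rw [List.prefix_iff_eq_take] at h1
  rw [pre_length] at h1
  exact h1.symm

theorem sound {p x : ℕ → ℕ} (H : Hyp K1 K2 G p x) {c : List ℕ} {n0 l : ℕ}
    (hp : p ∈ SS K1 K2 G c n0 l) : x 0 = 1 := by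
  obtain ⟨L0, hL0, hall⟩ := hp
  obtain ⟨L, hLb, hag, hRg⟩ := exists_valid H.count (Ap_sub_Bits p) L0 hL0.1 l
    (fun i _ hi => hL0.2 i hi)
  have hLV : L ∈ VV K1 p := by
    refine ⟨hLb, fun i hi => ?_⟩
    rw [← hRg]
    exact ⟨i, hi, rfl⟩
  have hPhi := hall L hLV hag
  obtain ⟨P2, hP2, hc2, hnext⟩ := H.next L hLb hRg
  have hcons : ∀ n, ConsL (K2 (pre p n) (pre L n)) c := by
    intro n
    by_contra hcon
    exact hPhi n (Or.inr hcon)
  obtain ⟨L2, hL2b, hL2c, hL2R⟩ := exists_valid_list hc2 (cantorOf_sub_Bits P2) c (hcons 0).1 (by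
    intro i hi hi1
    obtain ⟨z, hz1, hz2⟩ := exists_common (a := fun n => K2 (pre p n) (pre L n))
      (fun n => H.mono2 _ _ _ _ (pre_prefix (Nat.le_succ n)) (pre_prefix (Nat.le_succ n))) c i
      (fun n => (hcons n).2 i hi hi1)
    exact ⟨z, (mem_cantorOf_iff hP2 z).2 hz1, hz2⟩)
  have hconv := hnext L2 hL2b hL2R
  have hhead : (G (pre p n0) (pre L n0) c).head? = some 1 := by
    by_contra hcon
    apply hPhi n0
    left
    refine ⟨by simp, ?_⟩
    rw [pre_take p le_rfl, pre_take L le_rfl]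
    exact hcon
  have h1 : G (pre p n0) (pre L n0) c <+:
      G (pre p (max n0 c.length)) (pre L (max n0 c.length)) (pre L2 (max n0 c.length)) := by
    apply H.mono3
    · exact pre_prefix (le_max_left _ _)
    · exact pre_prefix (le_max_left _ _)
    · conv_lhs => rw [← hL2c]
      exact pre_prefix (le_max_right _ _)
  have h2 := hconv.1 (max n0 c.length)
  have h3 : G (pre p n0) (pre L n0) c <+: pre x
      (G (pre p (max n0 c.length)) (pre L (max n0 c.length)) (pre L2 (max n0 c.length))).length := by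
    rw [← h2]
    exact h1
  have h4 := prefix_eq_pre h3
  rcases hlen : (G (pre p n0) (pre L n0) c).length with _ | m
  · rw [List.length_eq_zero_iff] at hlen
    rw [hlen] at hhead
    simp at hhead
  · rw [hlen] at h4
    rw [h4] at hhead
    have h5 : pre x (m + 1) = x 0 :: (List.range m).map (fun i => x (i + 1)) := by
      simp [pre, List.range_succ_eq_map, List.map_map, Function.comp_def]
    rw [h5] at hhead
    simpa using hhead

/-- The step of the construction of a generic enumeration. -/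
theorem step_exists {p x : ℕ → ℕ} (_H : Hyp K1 K2 G p x)
    (hneg : ∀ c n0 l, p ∉ SS K1 K2 G c n0 l) (f : ℕ → ℕ → ℕ)
    (hf : (Ap K1 p).Nonempty → ∀ j, f j ∈ Ap K1 p) (j : ℕ) (c : List ℕ) (n0 : ℕ)
    (l : ℕ) (L0 : ℕ → ℕ) (hL0 : L0 ∈ VV K1 p) :
    ∃ l' L, L ∈ VV K1 p ∧ l < l' ∧ Agree l L L0 ∧
      ((Ap K1 p).Nonempty → L (Nat.pair l 0) = 1 ∧ ∀ k, L (Nat.pair l (k + 1)) = f j k) ∧
      ∃ n ≤ l', Vio K2 G c n0 (pre p n) (pre L n) := by
  classical
  have h1 : ∃ L1 ∈ VV K1 p, Agree l L1 L0 ∧ ((Ap K1 p).Nonempty → L1 (Nat.pair l 0) = 1 ∧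
      ∀ k, L1 (Nat.pair l (k + 1)) = f j k) := by
    by_cases hne : (Ap K1 p).Nonempty
    · let L1 : ℕ → ℕ := fun m => if (Nat.unpair m).1 = l then
        (if (Nat.unpair m).2 = 0 then 1 else f j ((Nat.unpair m).2 - 1)) else L0 m
      have e1 : ∀ i k, i ≠ l → L1 (Nat.pair i k) = L0 (Nat.pair i k) := by
        intro i k hi
        simp only [L1, Nat.unpair_pair, hi, if_false]
      have e2 : L1 (Nat.pair l 0) = 1 := by
        simp only [L1, Nat.unpair_pair, if_true]
      have e3 : ∀ k, L1 (Nat.pair l (k + 1)) = f j k := by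
        intro k
        simp only [L1, Nat.unpair_pair, if_true, Nat.succ_ne_zero, if_false, Nat.add_sub_cancel]
      refine ⟨L1, ⟨?_, ?_⟩, fun i hi k => e1 i k (by omega), fun _ => ⟨e2, e3⟩⟩
      · intro m
        simp only [L1]
        split_ifs
        · exact le_rfl
        · exact Ap_sub_Bits p (hf hne j) _
        · exact hL0.1 _
      · intro i hi
        by_cases hil : i = l
        · subst hil
          have : (fun k => L1 (Nat.pair i (k + 1))) = f j := by
            funext k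
            exact e3 k
          rw [this]
          exact hf hne j
        · have : (fun k => L1 (Nat.pair i (k + 1))) = fun k => L0 (Nat.pair i (k + 1)) := by
            funext k
            exact e1 i _ hil
          rw [this]
          apply hL0.2 i
          rw [← e1 i 0 hil]
          exact hi
    · exact ⟨L0, hL0, fun i _ k => rfl, fun h => absurd h hne⟩
  obtain ⟨L1, hL1, hag1, hcol⟩ := h1
  have h2 : ∃ L ∈ VV K1 p, Agree (l + 1) L L1 ∧ L ∉ Phi K2 G p c n0 := by
    by_contra hcon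
    push Not at hcon
    exact hneg c n0 (l + 1) ⟨L1, hL1, hcon⟩
  obtain ⟨L, hL, hag2, hLP⟩ := h2
  have h3 : ∃ n, Vio K2 G c n0 (pre p n) (pre L n) := by
    by_contra hcon
    push Not at hcon
    exact hLP hcon
  obtain ⟨n, hn⟩ := h3
  refine ⟨max (l + 1) n, L, hL, by omega, ?_, ?_, n, le_max_right _ _, hn⟩
  · intro i hi k
    rw [hag2 i (by omega) k]
    exact hag1 i hi k
  · intro hne
    refine ⟨?_, fun k => ?_⟩
    · rw [hag2 l (by omega) 0]
      exact (hcol hne).1
    · rw [hag2 l (by omega) (k + 1)]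
      exact (hcol hne).2 k

theorem complete {p x : ℕ → ℕ} (H : Hyp K1 K2 G p x) (hx : x 0 = 1) :
    ∃ c n0 l, p ∈ SS K1 K2 G c n0 l := by
  classical
  by_contra hneg
  push Not at hneg
  -- enumerations
  obtain ⟨e, he⟩ : ∃ e : ℕ → List ℕ × ℕ, Function.Surjective e := exists_surjective_nat _
  obtain ⟨f, hf, hf2⟩ : ∃ f : ℕ → ℕ → ℕ, ((Ap K1 p).Nonempty → ∀ j, f j ∈ Ap K1 p) ∧
      ∀ z ∈ Ap K1 p, ∃ j, f j = z := by
    rcases Set.eq_empty_or_nonempty (Ap K1 p) with hem | hne
    · refine ⟨fun _ _ => 0, fun h => ?_, fun z hz => ?_⟩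
      · rw [hem] at h
        exact absurd h Set.not_nonempty_empty
      · rw [hem] at hz
        exact absurd hz (Set.notMem_empty z)
    · obtain ⟨f, hf⟩ := H.count.exists_eq_range hne
      refine ⟨f, fun _ j => ?_, fun z hz => ?_⟩
      · rw [hf]
        exact ⟨j, rfl⟩
      · rw [hf] at hz
        exact hz
  let St : Type := {s : ℕ × (ℕ → ℕ) // s.2 ∈ VV K1 p}
  have hstep : ∀ (j : ℕ) (s : St), ∃ s' : St, s.1.1 < s'.1.1 ∧ Agree s.1.1 s'.1.2 s.1.2 ∧
      ((Ap K1 p).Nonempty → s'.1.2 (Nat.pair s.1.1 0) = 1 ∧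
        ∀ k, s'.1.2 (Nat.pair s.1.1 (k + 1)) = f j k) ∧
      ∃ n ≤ s'.1.1, Vio K2 G (e j).1 (e j).2 (pre p n) (pre s'.1.2 n) := by
    intro j s
    obtain ⟨l', L, h1, h2, h3, h4, h5⟩ :=
      step_exists H hneg f hf j (e j).1 (e j).2 s.1.1 s.1.2 s.2
    exact ⟨⟨(l', L), h1⟩, h2, h3, h4, h5⟩
  choose nx hnx using hstep
  have h0 : (fun _ => 0 : ℕ → ℕ) ∈ VV K1 p :=
    ⟨fun _ => Nat.zero_le _, fun i hi => absurd hi (by norm_num)⟩
  let st : ℕ → St := fun n => Nat.rec ⟨(0, fun _ => 0), h0⟩ (fun j s => nx j s) n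
  have hst : ∀ j, st (j + 1) = nx j (st j) := fun j => rfl
  have hlt : ∀ j, (st j).1.1 < (st (j + 1)).1.1 := fun j => by
    rw [hst]
    exact (hnx j (st j)).1
  have hmono : StrictMono (fun j => (st j).1.1) := strictMono_nat_of_lt_succ hlt
  have hge : ∀ j, j ≤ (st j).1.1 := fun j => hmono.le_apply
  have hag : ∀ m m', m ≤ m' → Agree (st m).1.1 (st m').1.2 (st m).1.2 := by
    intro m m' h
    induction h with
    | refl => exact fun _ _ _ => rfl
    | step hle ih =>
      rename_i m''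
      intro i hi k
      have h1 : i < (st m'').1.1 := lt_of_lt_of_le hi (hmono.monotone hle)
      have h2 := (hnx m'' (st m'')).2.1 i h1 k
      rw [← hst] at h2
      rw [Nat.succ_eq_add_one, h2]
      exact ih i hi k
  let L : ℕ → ℕ := fun m => (st ((Nat.unpair m).1 + 1)).1.2 m
  have hL : ∀ i k, L (Nat.pair i k) = (st (i + 1)).1.2 (Nat.pair i k) := by
    intro i k
    simp only [L, Nat.unpair_pair]
  have hLj : ∀ j i k, i < (st j).1.1 → L (Nat.pair i k) = (st j).1.2 (Nat.pair i k) := by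
    intro j i k hi
    rw [hL]
    rcases le_total (i + 1) j with h | h
    · exact (hag (i + 1) j h i (lt_of_lt_of_le (Nat.lt_succ_self i) (hge (i + 1))) k).symm
    · exact hag j (i + 1) h i hi k
  have hLb : L ∈ Bits := by
    intro m
    exact (st ((Nat.unpair m).1 + 1)).2.1 m
  have hLR : Rg L = Ap K1 p := by
    ext z
    constructor
    · rintro ⟨i, hi, rfl⟩
      have h1 : (fun k => L (Nat.pair i (k + 1))) =
          fun k => (st (i + 1)).1.2 (Nat.pair i (k + 1)) := by
        funext k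
        exact hL i _
      rw [h1]
      apply (st (i + 1)).2.2 i
      rw [← hL i 0]
      exact hi
    · intro hz
      obtain ⟨j, rfl⟩ := hf2 z hz
      have h1 := (hnx j (st j)).2.2.1 ⟨_, hz⟩
      rw [← hst] at h1
      refine ⟨(st j).1.1, ?_, ?_⟩
      · rw [hLj (j + 1) _ _ (hlt j)]
        exact h1.1
      · funext k
        rw [hLj (j + 1) _ _ (hlt j)]
        exact (h1.2 k).symm
  obtain ⟨P2, hP2, hc2, hnext⟩ := H.next L hLb hLR
  obtain ⟨L2, hL2b, -, hL2R⟩ := exists_valid hc2 (cantorOf_sub_Bits P2) (fun _ => 0)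
    (fun _ => Nat.zero_le _) 0 (fun i hi => absurd hi (Nat.not_lt_zero i))
  have hconv := hnext L2 hL2b hL2R
  obtain ⟨N, hN⟩ := hconv.2 1
  -- the index
  obtain ⟨j, hj⟩ := he (pre L2 N, N)
  obtain ⟨n, hn, hvio⟩ := (hnx j (st j)).2.2.2
  rw [← hst] at hn hvio
  have hpre : pre (st (j + 1)).1.2 n = pre L n := by
    apply pre_congr
    intro m hm
    obtain ⟨i, k, rfl⟩ : ∃ i k, m = Nat.pair i k := ⟨_, _, (Nat.pair_unpair m).symm⟩
    have hi : i < n := lt_of_le_of_lt (Nat.left_le_pair i k) hm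
    exact (hLj (j + 1) i k (lt_of_lt_of_le hi hn)).symm
  rw [hpre, hj] at hvio
  rcases hvio with ⟨h1, h2⟩ | h2
  · apply h2
    rw [pre_length] at h1
    show (G ((pre p n).take N) ((pre L n).take N) (pre L2 N)).head? = some 1
    have h1' : N ≤ n := h1
    rw [pre_take p h1', pre_take L h1']
    have h3 : G (pre p N) (pre L N) (pre L2 N) =
      pre x (G (pre p N) (pre L N) (pre L2 N)).length := hconv.1 N
    have h4 : 1 ≤ (G (pre p N) (pre L N) (pre L2 N)).length := hN N le_rfl
    rcases hlen : (G (pre p N) (pre L N) (pre L2 N)).length with _ | m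
    · omega
    · rw [hlen] at h3
      rw [h3]
      have h5 : pre x (m + 1) = x 0 :: (List.range m).map (fun i => x (i + 1)) := by
        simp [pre, List.range_succ_eq_map, List.map_map, Function.comp_def]
      rw [h5, hx]
      rfl
  · apply h2
    refine ⟨fun i hi => ?_, fun i hi hi1 => ?_⟩
    · show (pre L2 N).getD i 0 ≤ 1
      have hi' : i < N := by simpa using hi
      rw [pre_getD _ _ _ hi']
      exact hL2b i
    · have hi' : Nat.pair i 0 < N := by simpa using hi
      have hi1' : L2 (Nat.pair i 0) = 1 := by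
        rw [← pre_getD L2 N _ hi']
        exact hi1
      have h6 : (fun k => L2 (Nat.pair i (k + 1))) ∈ cantorOf P2 := by
        rw [← hL2R]
        exact ⟨i, hi1', rfl⟩
      refine ⟨_, (mem_cantorOf_iff hP2 _).1 h6 n, ?_⟩
      intro k hk
      have hk' : Nat.pair i (k + 1) < N := by simpa using hk
      exact pre_getD _ _ _ hk'

end

end Q204.LL
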